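import Pool.Agent.Q100.DO.Region
import Pool.Agent.W672.FK.Lowf
import Pool.Agent.W513.FK.Parf
import Pool.Agent.W554.RS.MDL
import Pool.Agent.W307.RS.FinalD
import Pool.Agent.W701.FK.Find

set_option autoImplicit false

/-!
# The curves with full rational 2-torsion: comparison of the orderings by height and discriminant
-/

namespace Pool.Agent.Q100.DO

open Finset Filter Pool.Agent.W307.RT Pool.Agent.W307.RS Pool.Agent.W307.FK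

/-- at most a constant times `W²` curves have minimal discriminant at most `Z`, `6¹² Z ≤ W⁶` -/
theorem dvs_card : ∃ C : ℝ, 0 ≤ C ∧ ∀ Z W : ℕ, 1 ≤ W → 6 ^ 12 * Z ≤ W ^ 6 →
    ∀ S : Finset (ℤ × ℤ), (S : Set (ℤ × ℤ)) ⊆ DvS 2 Z → (S.card : ℝ) ≤ C * (W : ℝ) ^ 2 := by
  classical
  obtain ⟨C, hC, h⟩ := region_g
  obtain ⟨F, hF1, hF2⟩ := Pool.Agent.W513.FK.parf
  refine ⟨C, hC, fun Z W hW hZW S hS => ?_⟩
  have hinj : Set.InjOn F (S : Set (ℤ × ℤ)) := fun c hc c' hc' hcc =>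
    hF1 ⟨(hS hc).1, (hS hc).2.2.1⟩ ⟨(hS hc').1, (hS hc').2.2.1⟩ hcc
  rw [← card_image_of_injOn hinj]
  refine h W hW _ fun t ht => ?_
  obtain ⟨c, hc, rfl⟩ := mem_image.1 ht
  obtain ⟨d1, d2, d3, d4⟩ := hS (mem_coe.2 hc)
  obtain ⟨g1, g2, g3, g4, g5, e1, e2, e3, g6, g7, g8⟩ := hF2 c d1 d3
  obtain ⟨-, -, a3⟩ := Pool.Agent.W701.FK.curve_data d1 g6 g1 g3 g4 g5 g2 g7 g8
  refine ⟨g1, g3, g4, g5, ?_⟩
  have b1 := (Pool.Agent.W554.RS.mdl c.1 c.2 d1 d2).1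
  rw [← a3] at b1
  have b2 : 6 ^ 12 * mD (Sh c.1 c.2) ≤ 6 ^ 12 * Z := Nat.mul_le_mul_left _ d4
  have k2 : ((F c).1 ^ 3 * ((F c).2.1 * (F c).2.2 *
      ((F c).2.1 - (F c).2.2)).natAbs) ^ 2 ≤ (W ^ 3) ^ 2 := by
    calc _ ≤ 6 ^ 12 * Z := by omega
      _ ≤ W ^ 6 := hZW
      _ = (W ^ 3) ^ 2 := by ring
  exact (Nat.pow_le_pow_iff_left (by norm_num)).1 k2

theorem dvs_fin (Z : ℕ) : (DvS 2 Z).Finite := by
  obtain ⟨C, hC, h⟩ := dvs_card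
  by_contra hinf
  have hinf' : (DvS 2 Z).Infinite := hinf
  obtain ⟨n, hn⟩ := exists_nat_gt (C * ((6 ^ 12 * Z + 1 : ℕ) : ℝ) ^ 2)
  obtain ⟨S, hS, hcard⟩ := hinf'.exists_subset_card_eq n
  have h1 := h Z (6 ^ 12 * Z + 1) (by omega)
    ((Nat.le_succ _).trans (Nat.le_self_pow (by norm_num) _)) S hS
  rw [hcard] at h1
  linarith

/-- the number of the curves of minimal discriminant at most `Z` is at most a constant times the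
number of the curves of height at most `Z / 32` -/
theorem dvs_le_cv : ∃ C : ℝ, 0 < C ∧ ∃ Z0 : ℕ, ∀ Z : ℕ, Z0 ≤ Z →
    ((DvS 2 Z).ncard : ℝ) ≤ C * ((Cv 2 (Z / 32)).card : ℝ) := by
  classical
  obtain ⟨C, hC, h⟩ := dvs_card
  obtain ⟨c, C1, T0, hc, hlow⟩ := Pool.Agent.W672.FK.lowf
  obtain ⟨D1, hD1⟩ : ∃ D1, D1 = C1 + 1 := ⟨_, rfl⟩
  obtain ⟨K, hK⟩ : ∃ K, K = 6 ^ 12 * (32 * D1) := ⟨_, rfl⟩
  have hK1 : 1 ≤ K := by
    rw [hK, hD1]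
    omega
  refine ⟨4 * C * (K : ℝ) ^ 2 / c + 1, by positivity, 32 * (D1 * (T0 + 1) ^ 6), fun Z hZ => ?_⟩
  obtain ⟨T, hT⟩ : ∃ T, T = Nat.findGreatest (fun t => 32 * (D1 * t ^ 6) ≤ Z) Z := ⟨_, rfl⟩
  have hTk : 32 * (D1 * T ^ 6) ≤ Z := by
    rw [hT]
    exact Nat.findGreatest_spec (P := fun t => 32 * (D1 * t ^ 6) ≤ Z) (Nat.zero_le _)
      (by simp)
  have hle : ∀ t : ℕ, 32 * (D1 * t ^ 6) ≤ Z → t ≤ Z := by
    intro t ht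
    have h1 : t ≤ t ^ 6 := Nat.le_self_pow (by norm_num) t
    have h2 : t ^ 6 ≤ D1 * t ^ 6 := Nat.le_mul_of_pos_left _ (by omega)
    omega
  have hT0 : T0 + 1 ≤ T := by
    rw [hT]
    exact Nat.le_findGreatest (hle _ hZ) hZ
  have hTW : Z < 32 * (D1 * (T + 1) ^ 6) := by
    by_contra hcon
    push Not at hcon
    have h1 : T + 1 ≤ T := by
      conv_rhs => rw [hT]
      exact Nat.le_findGreatest (hle _ hcon) hcon
    omega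
  have hW : 6 ^ 12 * Z ≤ (K * (T + 1)) ^ 6 := by
    calc 6 ^ 12 * Z ≤ 6 ^ 12 * (32 * (D1 * (T + 1) ^ 6)) := Nat.mul_le_mul_left _ hTW.le
      _ = K * (T + 1) ^ 6 := by rw [hK]; ring
      _ ≤ K ^ 6 * (T + 1) ^ 6 := Nat.mul_le_mul_right _ (Nat.le_self_pow (by norm_num) K)
      _ = (K * (T + 1)) ^ 6 := by rw [mul_pow]
  have hfin := dvs_fin Z
  have h1 := h Z (K * (T + 1)) (Nat.mul_pos hK1 (Nat.succ_pos T)) hW hfin.toFinset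
    (by rw [hfin.coe_toFinset])
  rw [← Set.ncard_eq_toFinset_card _ hfin] at h1
  have h2 : c * (T : ℝ) ^ 2 ≤ ((Cv 2 (Z / 32)).card : ℝ) := by
    refine hlow T (Z / 32) (by omega) ?_
    have h3 : C1 * T ^ 6 ≤ D1 * T ^ 6 := Nat.mul_le_mul_right _ (by omega)
    omega
  have hT1 : (1 : ℝ) ≤ T := by
    have : 1 ≤ T := by omega
    exact_mod_cast this
  have h4 : ((K * (T + 1) : ℕ) : ℝ) ^ 2 ≤ 4 * (K : ℝ) ^ 2 * (T : ℝ) ^ 2 := by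
    push_cast
    have h5 : (T : ℝ) + 1 ≤ 2 * T := by linarith
    calc ((K : ℝ) * ((T : ℝ) + 1)) ^ 2 ≤ ((K : ℝ) * (2 * T)) ^ 2 := by gcongr
      _ = _ := by ring
  have h6 : (T : ℝ) ^ 2 ≤ ((Cv 2 (Z / 32)).card : ℝ) / c := by
    rw [le_div_iff₀ hc]
    linarith
  calc ((DvS 2 Z).ncard : ℝ) ≤ C * ((K * (T + 1) : ℕ) : ℝ) ^ 2 := h1
    _ ≤ C * (4 * (K : ℝ) ^ 2 * (T : ℝ) ^ 2) := by gcongr
    _ ≤ C * (4 * (K : ℝ) ^ 2 * (((Cv 2 (Z / 32)).card : ℝ) / c)) := by gcongr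
    _ = 4 * C * (K : ℝ) ^ 2 / c * ((Cv 2 (Z / 32)).card : ℝ) := by ring
    _ ≤ (4 * C * (K : ℝ) ^ 2 / c + 1) * ((Cv 2 (Z / 32)).card : ℝ) := by
        have : (0 : ℝ) ≤ ((Cv 2 (Z / 32)).card : ℝ) := by positivity
        nlinarith

open Classical in
/-- a positive proportion by height is a positive proportion by discriminant -/
theorem pos_of_height {P : ℤ × ℤ → Prop} (h : ∃ c : ℝ, 0 < c ∧ ∃ H0 : ℕ, ∀ H : ℕ, H0 ≤ H →
    c * ((Cv 2 H).card : ℝ) ≤ (((Cv 2 H).filter P).card : ℝ)) :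
    ∃ δ : ℝ, 0 < δ ∧ ∃ Z0 : ℕ, ∀ Z : ℕ, Z0 ≤ Z →
      δ * ((DvS 2 Z).ncard : ℝ) ≤ ((DvS 2 Z ∩ {c | P c}).ncard : ℝ) := by
  obtain ⟨c, hc, H0, h⟩ := h
  obtain ⟨C, hC, Z1, h1⟩ := dvs_le_cv
  refine ⟨c / C, div_pos hc hC, max Z1 (32 * H0), fun Z hZ => ?_⟩
  have h2 := h (Z / 32) (by
    rw [Nat.le_div_iff_mul_le (by norm_num)]
    have := le_trans (le_max_right _ _) hZ
    omega)
  have h3 := h1 Z (le_trans (le_max_left _ _) hZ)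
  have h4 : (((Cv 2 (Z / 32)).filter P).card : ℝ) ≤ ((DvS 2 Z ∩ {c | P c}).ncard : ℝ) := by
    rw [← Set.ncard_coe_finset]
    refine Nat.cast_le.2 (Set.ncard_le_ncard (fun x hx => ?_)
      ((dvs_fin Z).subset Set.inter_subset_left))
    rw [mem_coe, mem_filter] at hx
    exact ⟨Cv_sub Pool.Agent.W554.RS.mdl 2 (Z / 32) Z (Nat.mul_div_le Z 32)
      (mem_coe.2 hx.1), hx.2⟩
  calc c / C * ((DvS 2 Z).ncard : ℝ) ≤ c / C * (C * ((Cv 2 (Z / 32)).card : ℝ)) := by gcongr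
    _ = c * ((Cv 2 (Z / 32)).card : ℝ) := by field_simp
    _ ≤ _ := h2.trans h4

end Pool.Agent.Q100.DO
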