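import Mathlib

set_option autoImplicit false

/-!
# Points of the regions `g³ |a b (a - b)| ≤ W³`

The lemmas `fib`, `cusp1`, `cusp` are those of `Pool/Agent/TH344/DS/Reg.lean` (copied here to keep the
imports small).
-/

namespace Pool.Agent.Q100.DO

open Finset

lemma fib (Q n : ℕ) (S : Finset (ℤ × ℤ)) (h : ∀ t ∈ S, t.1 ≠ 0 ∧ t.2.natAbs = n ∧ t.1.natAbs ≤ Q) :
    S.card ≤ 4 * Q := by
  classical
  have hsub : S ⊆ ((Icc (-(Q : ℤ)) Q).erase 0) ×ˢ ({(n : ℤ), -(n : ℤ)} : Finset ℤ) := by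
    intro t ht
    obtain ⟨a1, a2, a3⟩ := h t ht
    rw [mem_product, mem_erase, mem_Icc, mem_insert, mem_singleton]
    refine ⟨⟨a1, by omega, by omega⟩, by omega⟩
  refine (card_le_card hsub).trans ?_
  rw [card_product, card_erase_of_mem (by rw [mem_Icc]; omega), Int.card_Icc]
  have h2 : ({(n : ℤ), -(n : ℤ)} : Finset ℤ).card ≤ 2 := card_le_two
  have h3 : ((Q : ℤ) + 1 - -(Q : ℤ)).toNat - 1 = 2 * Q := by omega
  rw [h3]
  calc 2 * Q * ({(n : ℤ), -(n : ℤ)} : Finset ℤ).card ≤ 2 * Q * 2 := Nat.mul_le_mul_left _ h2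
    _ = 4 * Q := by ring

/-- one cusp -/
lemma cusp1 (W A : ℕ) (hW : 1 ≤ W) (hA : 1 ≤ A) (S : Finset (ℤ × ℤ))
    (h : ∀ t ∈ S, t.1 ≠ 0 ∧ A * W < 2 * t.2.natAbs ∧ t.1.natAbs * t.2.natAbs ^ 2 ≤ 2 * W ^ 3) :
    (S.card : ℝ) ≤ 32 * (W : ℝ) ^ 2 / A := by
  classical
  set k := A * W / 2 with hk
  set R := 2 * W ^ 3 + 1 with hR
  have hmap : ∀ t ∈ S, t.2.natAbs ∈ Ioo k R := by
    intro t ht
    obtain ⟨a1, a2, a3⟩ := h t ht
    rw [mem_Ioo]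
    refine ⟨?_, ?_⟩
    · rw [hk, Nat.div_lt_iff_lt_mul (by norm_num)]
      omega
    · have h1 : 1 ≤ t.1.natAbs := Int.natAbs_pos.2 a1
      have h2 : 1 ≤ t.2.natAbs := by omega
      have h3 : t.2.natAbs ≤ t.1.natAbs * t.2.natAbs ^ 2 := by
        calc t.2.natAbs = 1 * t.2.natAbs ^ 1 := by ring
          _ ≤ t.1.natAbs * t.2.natAbs ^ 2 :=
            Nat.mul_le_mul h1 (Nat.pow_le_pow_right h2 (by norm_num))
      omega
  rw [card_eq_sum_card_fiberwise (f := fun t : ℤ × ℤ => t.2.natAbs) (t := Ioo k R)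
    (fun t ht => hmap t ht)]
  push_cast
  have hW0 : (0 : ℝ) < W := by exact_mod_cast hW
  have hA0 : (0 : ℝ) < A := by exact_mod_cast hA
  calc ∑ n ∈ Ioo k R, (((S.filter fun t : ℤ × ℤ => t.2.natAbs = n).card : ℕ) : ℝ)
      ≤ ∑ n ∈ Ioo k R, 8 * (W : ℝ) ^ 3 * ((n : ℝ) ^ 2)⁻¹ := by
        refine sum_le_sum fun n hn => ?_
        rw [mem_Ioo] at hn
        have hn0 : 0 < n := by omega
        have h1 := fib (2 * W ^ 3 / n ^ 2) n (S.filter fun t : ℤ × ℤ => t.2.natAbs = n) (by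
          intro t ht
          rw [mem_filter] at ht
          obtain ⟨ht1, ht2⟩ := ht
          obtain ⟨a1, a2, a3⟩ := h t ht1
          refine ⟨a1, ht2, ?_⟩
          rw [Nat.le_div_iff_mul_le (by positivity), ← ht2]
          exact a3)
        have h2 : (((2 * W ^ 3 / n ^ 2 : ℕ)) : ℝ) ≤ 2 * (W : ℝ) ^ 3 * ((n : ℝ) ^ 2)⁻¹ := by
          refine Nat.cast_div_le.trans (le_of_eq ?_)
          push_cast
          rw [div_eq_mul_inv]
        calc (((S.filter fun t : ℤ × ℤ => t.2.natAbs = n).card : ℕ) : ℝ)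
            ≤ ((4 * (2 * W ^ 3 / n ^ 2) : ℕ) : ℝ) := by exact_mod_cast h1
          _ = 4 * (((2 * W ^ 3 / n ^ 2 : ℕ)) : ℝ) := by push_cast; ring
          _ ≤ 4 * (2 * (W : ℝ) ^ 3 * ((n : ℝ) ^ 2)⁻¹) := by linarith
          _ = 8 * (W : ℝ) ^ 3 * ((n : ℝ) ^ 2)⁻¹ := by ring
    _ = 8 * (W : ℝ) ^ 3 * ∑ n ∈ Ioo k R, ((n : ℝ) ^ 2)⁻¹ := by rw [mul_sum]
    _ ≤ 8 * (W : ℝ) ^ 3 * (2 / ((k : ℝ) + 1)) :=
        mul_le_mul_of_nonneg_left (sum_Ioo_inv_sq_le k R) (by positivity)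
    _ ≤ 8 * (W : ℝ) ^ 3 * (4 / ((A : ℝ) * W)) := by
        refine mul_le_mul_of_nonneg_left ?_ (by positivity)
        have h5 : A * W < 2 * (k + 1) := by omega
        have h6 : (A : ℝ) * W < 2 * ((k : ℝ) + 1) := by exact_mod_cast h5
        rw [div_le_div_iff₀ (by positivity) (by positivity)]
        linarith
    _ = 32 * (W : ℝ) ^ 2 / A := by
        field_simp
        ring

theorem cusp : ∃ C : ℝ, 0 ≤ C ∧ ∀ W A : ℕ, 1 ≤ W → 1 ≤ A → ∀ S : Finset (ℤ × ℤ),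
  (∀ t ∈ S, t.1 ≠ 0 ∧ t.2 ≠ 0 ∧ t.1 ≠ t.2 ∧ (t.1 * t.2 * (t.1 - t.2)).natAbs ≤ W ^ 3 ∧
    A * W < max t.1.natAbs t.2.natAbs) → (S.card : ℝ) ≤ C * (W : ℝ) ^ 2 / A := by
  classical
  refine ⟨96, by norm_num, fun W A hW hA S hS => ?_⟩
  -- the three kinds of cusps
  set S0 := S.filter fun t : ℤ × ℤ => t.1.natAbs ≤ t.2.natAbs ∧ t.1.natAbs ≤ (t.1 - t.2).natAbs
    with hS0
  set S1 := S.filter fun t : ℤ × ℤ => t.2.natAbs ≤ t.1.natAbs ∧ t.2.natAbs ≤ (t.1 - t.2).natAbs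
    with hS1
  set S2 := S.filter fun t : ℤ × ℤ => (t.1 - t.2).natAbs ≤ t.1.natAbs ∧
    (t.1 - t.2).natAbs ≤ t.2.natAbs with hS2
  have hcov : S ⊆ S0 ∪ (S1 ∪ S2) := by
    intro t ht
    rw [mem_union, mem_union, hS0, hS1, hS2, mem_filter, mem_filter, mem_filter]
    rcases le_total t.1.natAbs t.2.natAbs with h1 | h1
    · rcases le_total t.1.natAbs (t.1 - t.2).natAbs with h2 | h2
      · exact Or.inl ⟨ht, h1, h2⟩
      · exact Or.inr (Or.inr ⟨ht, h2, h2.trans h1⟩)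
    · rcases le_total t.2.natAbs (t.1 - t.2).natAbs with h2 | h2
      · exact Or.inr (Or.inl ⟨ht, h1, h2⟩)
      · exact Or.inr (Or.inr ⟨ht, h2.trans h1, h2⟩)
  -- the key inequality
  have key : ∀ s t : ℤ, s.natAbs ≤ t.natAbs → s.natAbs ≤ (s - t).natAbs →
      (s * t * (s - t)).natAbs ≤ W ^ 3 → s.natAbs * t.natAbs ^ 2 ≤ 2 * W ^ 3 := by
    intro s t _ h2 h3
    have h4 : t.natAbs ≤ 2 * (s - t).natAbs := by omega
    rw [Int.natAbs_mul, Int.natAbs_mul] at h3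
    calc s.natAbs * t.natAbs ^ 2 = s.natAbs * t.natAbs * t.natAbs := by ring
      _ ≤ s.natAbs * t.natAbs * (2 * (s - t).natAbs) := Nat.mul_le_mul_left _ h4
      _ = 2 * (s.natAbs * t.natAbs * (s - t).natAbs) := by ring
      _ ≤ 2 * W ^ 3 := Nat.mul_le_mul_left _ h3
  have b0 : (S0.card : ℝ) ≤ 32 * (W : ℝ) ^ 2 / A := by
    refine cusp1 W A hW hA S0 fun t ht => ?_
    rw [hS0, mem_filter] at ht
    obtain ⟨ht, h1, h2⟩ := ht
    obtain ⟨a1, a2, a3, a4, a5⟩ := hS t ht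
    refine ⟨a1, ?_, key _ _ h1 h2 a4⟩
    rw [max_eq_right h1] at a5
    omega
  have b1 : (S1.card : ℝ) ≤ 32 * (W : ℝ) ^ 2 / A := by
    have hinj : Set.InjOn (fun t : ℤ × ℤ => (t.2, t.1)) S1 := by
      rintro ⟨a, b⟩ _ ⟨c, d⟩ _ h
      simp only [Prod.mk.injEq] at h ⊢
      exact ⟨h.2, h.1⟩
    rw [← card_image_of_injOn hinj]
    refine cusp1 W A hW hA _ fun t ht => ?_
    obtain ⟨u, hu, rfl⟩ := mem_image.1 ht
    rw [hS1, mem_filter] at hu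
    obtain ⟨hu, h1, h2⟩ := hu
    obtain ⟨a1, a2, a3, a4, a5⟩ := hS u hu
    refine ⟨a2, ?_, key _ _ h1 (by simp only; omega) ?_⟩
    · rw [max_eq_left h1] at a5
      simp only
      omega
    · have : (u.2 * u.1 * (u.2 - u.1)).natAbs = (u.1 * u.2 * (u.1 - u.2)).natAbs := by
        rw [← Int.natAbs_neg]
        congr 1
        ring
      simp only
      rw [this]
      exact a4
  have b2 : (S2.card : ℝ) ≤ 32 * (W : ℝ) ^ 2 / A := by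
    have hinj : Set.InjOn (fun t : ℤ × ℤ => (t.2 - t.1, t.2)) S2 := by
      rintro ⟨a, b⟩ _ ⟨c, d⟩ _ h
      simp only [Prod.mk.injEq] at h ⊢
      omega
    rw [← card_image_of_injOn hinj]
    refine cusp1 W A hW hA _ fun t ht => ?_
    obtain ⟨u, hu, rfl⟩ := mem_image.1 ht
    rw [hS2, mem_filter] at hu
    obtain ⟨hu, h1, h2⟩ := hu
    obtain ⟨a1, a2, a3, a4, a5⟩ := hS u hu
    refine ⟨by simp only; omega, ?_, key _ _ (by simp only; omega) (by simp only; omega) ?_⟩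
    · simp only
      rw [lt_max_iff] at a5
      omega
    · have : ((u.2 - u.1) * u.2 * (u.2 - u.1 - u.2)).natAbs = (u.1 * u.2 * (u.1 - u.2)).natAbs := by
        congr 1
        ring
      simp only
      rw [this]
      exact a4
  have hc : S.card ≤ S0.card + (S1.card + S2.card) :=
    (card_le_card hcov).trans ((card_union_le _ _).trans
      (Nat.add_le_add_left (card_union_le _ _) _))
  have hc' : (S.card : ℝ) ≤ S0.card + (S1.card + S2.card) := by exact_mod_cast hc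
  calc (S.card : ℝ) ≤ S0.card + (S1.card + S2.card) := hc'
    _ ≤ 32 * (W : ℝ) ^ 2 / A + (32 * (W : ℝ) ^ 2 / A + 32 * (W : ℝ) ^ 2 / A) := by linarith
    _ = 96 * (W : ℝ) ^ 2 / A := by ring


/-- the number of the points of a region -/
lemma region_all : ∃ C : ℝ, 0 ≤ C ∧ ∀ W : ℕ, 1 ≤ W → ∀ S : Finset (ℤ × ℤ),
    (∀ t ∈ S, t.1 ≠ 0 ∧ t.2 ≠ 0 ∧ t.1 ≠ t.2 ∧ (t.1 * t.2 * (t.1 - t.2)).natAbs ≤ W ^ 3) →
    (S.card : ℝ) ≤ C * (W : ℝ) ^ 2 := by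
  classical
  obtain ⟨C, hC, h⟩ := cusp
  refine ⟨9 + C, by positivity, fun W hW S hS => ?_⟩
  have h1 := h W 1 hW le_rfl (S.filter (fun t => 1 * W < max t.1.natAbs t.2.natAbs))
    (fun t ht => by
      rw [mem_filter] at ht
      obtain ⟨h1, h2, h3, h4⟩ := hS t ht.1
      exact ⟨h1, h2, h3, h4, ht.2⟩)
  have h2 : ((S.filter (fun t => ¬ 1 * W < max t.1.natAbs t.2.natAbs)).card : ℝ) ≤
      (2 * (W : ℝ) + 1) ^ 2 := by
    have hsub : S.filter (fun t => ¬ 1 * W < max t.1.natAbs t.2.natAbs) ⊆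
        (Icc (-(W : ℤ)) W) ×ˢ (Icc (-(W : ℤ)) W) := by
      intro t ht
      rw [mem_filter] at ht
      rw [mem_product, mem_Icc, mem_Icc]
      omega
    have h5 := card_le_card hsub
    rw [card_product, Int.card_Icc] at h5
    have h6 : ((W : ℤ) + 1 - -(W : ℤ)).toNat = 2 * W + 1 := by omega
    rw [h6] at h5
    calc ((S.filter (fun t => ¬ 1 * W < max t.1.natAbs t.2.natAbs)).card : ℝ)
        ≤ (((2 * W + 1) * (2 * W + 1) : ℕ) : ℝ) := by exact_mod_cast h5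
      _ = _ := by push_cast; ring
  have h3 := Finset.card_filter_add_card_filter_not (s := S)
    (fun t => 1 * W < max t.1.natAbs t.2.natAbs)
  have h4 : (S.card : ℝ) = ((S.filter (fun t => 1 * W < max t.1.natAbs t.2.natAbs)).card : ℝ) +
      ((S.filter (fun t => ¬ 1 * W < max t.1.natAbs t.2.natAbs)).card : ℝ) := by
    exact_mod_cast h3.symm
  have hW1 : (1 : ℝ) ≤ W := by exact_mod_cast hW
  have h5 : (2 * (W : ℝ) + 1) ^ 2 ≤ 9 * (W : ℝ) ^ 2 := by nlinarith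
  rw [Nat.cast_one, div_one] at h1
  rw [h4]
  linarith

lemma sum_inv_sq (W : ℕ) : ∑ g ∈ Icc 1 W, ((g : ℝ) ^ 2)⁻¹ ≤ 2 := by
  have h := sum_Ioo_inv_sq_le (α := ℝ) 0 (W + 1)
  have h1 : Ioo 0 (W + 1) = Icc 1 W := by
    ext x
    rw [mem_Ioo, mem_Icc]
    omega
  rw [h1] at h
  simpa using h

/-- the number of the triples `(g, a, b)` with `g³ |a b (a - b)| ≤ W³` -/
theorem region_g : ∃ C : ℝ, 0 ≤ C ∧ ∀ W : ℕ, 1 ≤ W → ∀ S : Finset (ℕ × ℤ × ℤ),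
    (∀ t ∈ S, 1 ≤ t.1 ∧ t.2.1 ≠ 0 ∧ t.2.2 ≠ 0 ∧ t.2.1 ≠ t.2.2 ∧
      t.1 ^ 3 * (t.2.1 * t.2.2 * (t.2.1 - t.2.2)).natAbs ≤ W ^ 3) →
    (S.card : ℝ) ≤ C * (W : ℝ) ^ 2 := by
  classical
  obtain ⟨C, hC, hall⟩ := region_all
  refine ⟨8 * C, by positivity, fun W hW S hS => ?_⟩
  have hg1 : ∀ t ∈ S, t.1 ∈ Icc 1 W := by
    intro t ht
    obtain ⟨h1, h2, h3, h4, h5⟩ := hS t ht
    rw [mem_Icc]
    refine ⟨h1, ?_⟩
    have h6 : 1 ≤ (t.2.1 * t.2.2 * (t.2.1 - t.2.2)).natAbs :=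
      Int.natAbs_pos.2 (mul_ne_zero (mul_ne_zero h2 h3) (sub_ne_zero.2 h4))
    have h7 : t.1 ^ 3 ≤ W ^ 3 := by
      calc t.1 ^ 3 = t.1 ^ 3 * 1 := (mul_one _).symm
        _ ≤ t.1 ^ 3 * (t.2.1 * t.2.2 * (t.2.1 - t.2.2)).natAbs := Nat.mul_le_mul_left _ h6
        _ ≤ W ^ 3 := h5
    exact (Nat.pow_le_pow_iff_left (by norm_num)).1 h7
  have hfib : ∀ g ∈ Icc 1 W, ((S.filter (fun t => t.1 = g)).card : ℝ) ≤
      4 * C * (W : ℝ) ^ 2 * ((g : ℝ) ^ 2)⁻¹ := by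
    intro g hg
    rw [mem_Icc] at hg
    have hg0 : 0 < g := by omega
    have hgr : (0 : ℝ) < g := by exact_mod_cast hg0
    obtain ⟨S', hS'⟩ : ∃ S', S' = (S.filter (fun t => t.1 = g)).image Prod.snd := ⟨_, rfl⟩
    have hcard : (S.filter (fun t => t.1 = g)).card = S'.card := by
      rw [hS', card_image_of_injOn]
      intro x hx y hy hxy
      have hx' := (mem_filter.1 (mem_coe.1 hx)).2
      have hy' := (mem_filter.1 (mem_coe.1 hy)).2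
      exact Prod.ext (hx'.trans hy'.symm) hxy
    obtain ⟨V, hV⟩ : ∃ V, V = W / g + 1 := ⟨_, rfl⟩
    have hV1 : 1 ≤ V := by
      rw [hV]
      exact Nat.le_add_left 1 _
    have hWV : W ≤ g * V := by
      rw [hV]
      exact (Nat.lt_mul_div_succ W hg0).le
    have hS'1 : ∀ t ∈ S', t.1 ≠ 0 ∧ t.2 ≠ 0 ∧ t.1 ≠ t.2 ∧
        (t.1 * t.2 * (t.1 - t.2)).natAbs ≤ V ^ 3 := by
      intro t ht
      rw [hS', mem_image] at ht
      obtain ⟨s, hs, rfl⟩ := ht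
      rw [mem_filter] at hs
      obtain ⟨h1, h3, h4, h5, h6⟩ := hS s hs.1
      refine ⟨h3, h4, h5, ?_⟩
      rw [hs.2] at h6
      have h8 : g ^ 3 * (s.2.1 * s.2.2 * (s.2.1 - s.2.2)).natAbs ≤ g ^ 3 * V ^ 3 := by
        refine h6.trans ?_
        rw [← mul_pow]
        exact Nat.pow_le_pow_left hWV 3
      exact Nat.le_of_mul_le_mul_left h8 (by positivity)
    have hVr : (V : ℝ) ≤ 2 * (W : ℝ) / g := by
      rw [le_div_iff₀ hgr]
      have h1 : V * g ≤ 2 * W := by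
        rw [hV, add_mul, one_mul, two_mul]
        exact Nat.add_le_add (Nat.div_mul_le_self W g) hg.2
      exact_mod_cast h1
    rw [hcard]
    calc (S'.card : ℝ) ≤ C * (V : ℝ) ^ 2 := hall V hV1 S' hS'1
      _ ≤ C * (2 * (W : ℝ) / g) ^ 2 := by gcongr
      _ = 4 * C * (W : ℝ) ^ 2 * ((g : ℝ) ^ 2)⁻¹ := by field_simp; ring
  rw [card_eq_sum_card_fiberwise (f := fun t : ℕ × ℤ × ℤ => t.1) (t := Icc 1 W)
    (fun t ht => hg1 t ht)]
  push_cast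
  calc ∑ g ∈ Icc 1 W, ((S.filter (fun t => t.1 = g)).card : ℝ)
      ≤ ∑ g ∈ Icc 1 W, 4 * C * (W : ℝ) ^ 2 * ((g : ℝ) ^ 2)⁻¹ := sum_le_sum hfib
    _ = 4 * C * (W : ℝ) ^ 2 * ∑ g ∈ Icc 1 W, ((g : ℝ) ^ 2)⁻¹ := by rw [mul_sum]
    _ ≤ 4 * C * (W : ℝ) ^ 2 * 2 := mul_le_mul_of_nonneg_left (sum_inv_sq W) (by positivity)
    _ = 8 * C * (W : ℝ) ^ 2 := by ring

end Pool.Agent.Q100.DO
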